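import Mathlib
import Pool.Agent.H44R2.Stk.T10

/-!
The central limit theorem for the number of descents after stack-sorting.
-/

namespace Pool.Agent.Results.MP_dbd6a6_co.CentralLimit

open Filter Topology ProbabilityTheory
open Pool.Agent.H44R2.Stk

/-- The number of permutations `σ` of the letters `0, …, n - 2`, written as words, for which
`(des (s σ) + 1 - (3 - e) n) / √n ≤ x`; `srt` is the stack-sorting map and `des` the number of
descents. -/
noncomputable def count (n : ℕ) (x : ℝ) : ℕ :=
  (List.range (n - 1)).permutations.countP (fun σ : List ℕ =>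
    decide (((des (srt σ) : ℝ) + 1 - (3 - Real.exp 1) * (n : ℝ)) / Real.sqrt (n : ℝ) ≤ x))

theorem result (x : ℝ) :
    Tendsto (fun n : ℕ => (count n x : ℝ) / ((n - 1).factorial : ℝ)) atTop
      (𝓝 (cdf (gaussianReal 0
        (Real.toNNReal (2 + 2 * Real.exp 1 - Real.exp 1 ^ 2))) x)) :=
  Pool.Agent.H44R2.Stk.T10.main x

end Pool.Agent.Results.MP_dbd6a6_co.CentralLimit
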