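import Mathlib
import Pool.Agent.H44R2.Stk.T10

/-!
The descent polynomials of stack-sorted permutations: a disc around `1` which contains no zero of
any of them, with a uniform asymptotic formula in this disc.
-/

namespace Pool.Agent.Results.MP_dbd6a6_co.ZeroFreeDisc

open Finset Filter Topology MeasureTheory ProbabilityTheory
open Pool.Agent.H44R2.Stk
open Pool.Agent.H44R2.Stk.T10

/-- The polynomial `A_n(x) = ∑_σ x ^ (des (s σ) + 1)`, the sum being over the permutations `σ` of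
the `n - 1` letters `0, …, n - 2`, written as words; `srt` is the stack-sorting map and `des` the
number of descents. -/
noncomputable def A (n : ℕ) : Polynomial ℂ :=
  ((List.range (n - 1)).permutations.map
    (fun σ => (Polynomial.X : Polynomial ℂ) ^ (des (srt σ) + 1))).sum

/-- The law of `des (s σ) + 1` at a complex argument. -/
lemma eval_A (n : ℕ) (z : ℂ) :
    (A n).eval z = ((n - 1).factorial : ℂ) * aa z (n - 1) := by
  have hnd : (List.range (n - 1)).permutations.Nodup :=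
    List.nodup_permutations _ List.nodup_range
  have h1 : (A n).eval z =
      ((List.range (n - 1)).permutations.map (fun σ => z ^ (des (srt σ) + 1))).sum := by
    unfold A
    rw [← Polynomial.coe_evalRingHom, map_list_sum, List.map_map]
    congr 1
    refine List.map_congr_left fun σ _ => ?_
    simp
  have h2 : ∑ π ∈ wds (range (n - 1)), z ^ (des (srt π) + 1) =
      ((List.range (n - 1)).permutations.map (fun σ => z ^ (des (srt σ) + 1))).sum := by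
    rw [wds_range_eq, List.sum_toFinset _ hnd]
  have hf : (((n - 1).factorial : ℕ) : ℂ) ≠ 0 := by exact_mod_cast (n - 1).factorial_ne_zero
  rw [h1, ← h2]
  unfold aa
  rw [mul_div_cancel₀ _ hf, Finset.mul_sum]
  refine Finset.sum_congr rfl fun σ _ => ?_
  rw [pow_succ]; ring

lemma aa_continuous (n : ℕ) : Continuous (fun z : ℂ => aa z n) := by
  unfold aa
  fun_prop

lemma aa_one (n : ℕ) : aa 1 n = 1 := by
  unfold aa
  have hf : ((n.factorial : ℕ) : ℂ) ≠ 0 := by exact_mod_cast n.factorial_ne_zero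
  simp only [one_pow, one_mul, Finset.sum_const, nsmul_eq_mul, mul_one]
  rw [Pool.Agent.H409R2.Stk.card_wds_range, div_self hf]

/-- The uniform asymptotic formula near `1`. -/
lemma quasi : ∃ δ > (0 : ℝ), ∃ C > (0 : ℝ), δ ≤ 1 / 2 ∧ C * δ ≤ 1 / 8 ∧
    ∀ t : ℂ, ‖t‖ ≤ δ → ∃ ρ : ℂ, ‖ρ - 1‖ ≤ C * ‖t‖ ∧
      ‖ρ - (1 + (Complex.exp 1 - 3) * t
        + (Complex.exp 1 ^ 2 - 9 / 2 * Complex.exp 1 + 5) * t ^ 2)‖ ≤ C * ‖t‖ ^ 3 ∧
      ∀ n : ℕ, ‖aa (1 + t) n - (ρ⁻¹) ^ (n + 1)‖ ≤ C * (2 / 3) ^ n := by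
  obtain ⟨δ₁, hδ₁, C₁, hC₁, H1⟩ := Pool.Agent.H379R2.Stk.exists_rho
  obtain ⟨δ₂, hδ₂, C₂, hC₂, H2⟩ := Pool.Agent.H61R2.Stk.coeff_bound
  obtain ⟨δ₃, hδ₃, C₃, hC₃, H3⟩ := Pool.Agent.H446R2.Stk.rho_expand C₁
  set C : ℝ := max C₁ (max C₂ C₃) with hC
  have hCp : 0 < C := lt_of_lt_of_le hC₁ (le_max_left _ _)
  set δ : ℝ := min (min δ₁ δ₂) (min δ₃ (min (1 / 2) (1 / (8 * C)))) with hδ
  have hδp : 0 < δ :=
    lt_min (lt_min hδ₁ hδ₂) (lt_min hδ₃ (lt_min (by norm_num) (by positivity)))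
  have d1 : δ ≤ δ₁ := (min_le_left _ _).trans (min_le_left _ _)
  have d2 : δ ≤ δ₂ := (min_le_left _ _).trans (min_le_right _ _)
  have d3 : δ ≤ δ₃ := (min_le_right _ _).trans (min_le_left _ _)
  have d4 : δ ≤ 1 / 2 := (min_le_right _ _).trans ((min_le_right _ _).trans (min_le_left _ _))
  have d5 : δ ≤ 1 / (8 * C) :=
    (min_le_right _ _).trans ((min_le_right _ _).trans (min_le_right _ _))
  have d6 : C * δ ≤ 1 / 8 := by
    calc C * δ ≤ C * (1 / (8 * C)) := mul_le_mul_of_nonneg_left d5 hCp.le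
      _ = 1 / 8 := by field_simp
  refine ⟨δ, hδp, C, hCp, d4, d6, fun t ht => ?_⟩
  obtain ⟨ρ, b1, b2⟩ := H1 t (ht.trans d1) (phi t) (phi_Phi t (ht.trans d4))
  have b1' : ‖ρ - 1‖ ≤ C * ‖t‖ :=
    b1.trans (mul_le_mul_of_nonneg_right (le_max_left _ _) (norm_nonneg t))
  have b3 : ‖ρ - 1‖ ≤ 1 / 8 :=
    b1'.trans ((mul_le_mul_of_nonneg_left ht hCp.le).trans d6)
  have b4 : 1 / 2 ≤ ‖ρ‖ := by
    have h := norm_sub_norm_le (1 : ℂ) (1 - ρ)
    have h' : (1 : ℂ) - (1 - ρ) = ρ := by ring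
    rw [h', norm_one, norm_sub_rev] at h
    linarith
  have b5 : ‖ρ‖ ≤ 2 := by
    have h := norm_add_le (ρ - 1) (1 : ℂ)
    rw [sub_add_cancel, norm_one] at h
    linarith
  refine ⟨ρ, b1', ?_, fun n => ?_⟩
  · refine (H3 t ρ (ht.trans d3) b1 (rho_eq t (ht.trans d4) ρ b5 b2)).trans ?_
    exact mul_le_mul_of_nonneg_right ((le_max_right _ _).trans (le_max_right _ _))
      (by positivity)
  · have h := H2 t (ht.trans d2) (phi t) (phi_Phi _ (ht.trans d4)) ρ b4 b5 b2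
        (aa (1 + t)) (aa_rec t) n
    refine h.trans ?_
    exact mul_le_mul_of_nonneg_right ((le_max_left _ _).trans (le_max_right _ _))
      (by positivity)

/-- No zero near `1`. -/
lemma zero_free : ∃ δ > (0 : ℝ), ∀ n : ℕ, ∀ z : ℂ, ‖z - 1‖ ≤ δ → aa z n ≠ 0 := by
  obtain ⟨δ, hδ, C, hC, hδ2, hCδ, H⟩ := quasi
  -- for large `n`
  have hlim : Tendsto (fun n : ℕ => C * (9 / 8) * (3 / 4 : ℝ) ^ n) atTop (𝓝 0) := by
    have := (tendsto_pow_atTop_nhds_zero_of_lt_one (r := (3 / 4 : ℝ)) (by norm_num)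
      (by norm_num)).const_mul (C * (9 / 8))
    simpa using this
  obtain ⟨N, hN⟩ := eventually_atTop.1 (hlim.eventually (gt_mem_nhds (zero_lt_one)))
  have hlarge : ∀ n, N ≤ n → ∀ z : ℂ, ‖z - 1‖ ≤ δ → aa z n ≠ 0 := by
    intro n hn z hz h0
    obtain ⟨ρ, h1, -, h3⟩ := H (z - 1) hz
    have h4 := h3 n
    rw [add_sub_cancel, h0, zero_sub, norm_neg, norm_pow, norm_inv] at h4
    have b3 : ‖ρ - 1‖ ≤ 1 / 8 :=
      h1.trans ((mul_le_mul_of_nonneg_left hz hC.le).trans hCδ)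
    have b5 : ‖ρ‖ ≤ 9 / 8 := by
      have h := norm_add_le (ρ - 1) (1 : ℂ)
      rw [sub_add_cancel, norm_one] at h
      linarith
    have b4 : 7 / 8 ≤ ‖ρ‖ := by
      have h := norm_sub_norm_le (1 : ℂ) (1 - ρ)
      have h' : (1 : ℂ) - (1 - ρ) = ρ := by ring
      rw [h', norm_one, norm_sub_rev] at h
      linarith
    have b6 : (8 / 9 : ℝ) ≤ ‖ρ‖⁻¹ := by
      rw [show (8 / 9 : ℝ) = (9 / 8 : ℝ)⁻¹ by norm_num]
      exact inv_anti₀ (by linarith) b5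
    have b7 : (8 / 9 : ℝ) ^ (n + 1) ≤ C * (2 / 3) ^ n :=
      (pow_le_pow_left₀ (by norm_num) b6 _).trans h4
    have b8 := hN n hn
    have e1 : (2 / 3 : ℝ) ^ n = (3 / 4 : ℝ) ^ n * (8 / 9 : ℝ) ^ n := by
      rw [← mul_pow]; norm_num
    have e2 : (8 / 9 : ℝ) ^ (n + 1) = (8 / 9 : ℝ) ^ n * (8 / 9) := pow_succ _ _
    rw [e1, e2] at b7
    have b9 : (0 : ℝ) < (8 / 9 : ℝ) ^ n := by positivity
    have b10 : (8 / 9 : ℝ) ≤ C * (3 / 4) ^ n := by
      have : (8 / 9 : ℝ) ^ n * (8 / 9) ≤ (8 / 9 : ℝ) ^ n * (C * (3 / 4) ^ n) := by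
        calc (8 / 9 : ℝ) ^ n * (8 / 9) ≤ C * ((3 / 4 : ℝ) ^ n * (8 / 9 : ℝ) ^ n) := b7
          _ = _ := by ring
      exact le_of_mul_le_mul_left this b9
    have b11 : C * (9 / 8) * (3 / 4 : ℝ) ^ n = (9 / 8) * (C * (3 / 4) ^ n) := by ring
    rw [b11] at b8
    linarith
  -- for small `n`
  have hsmall : ∀ᶠ z : ℂ in 𝓝 1, ∀ n ∈ range N, aa z n ≠ 0 := by
    rw [Filter.eventually_all_finset]
    intro n _
    have hc := (aa_continuous n).continuousAt (x := (1 : ℂ))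
    have h1 : aa 1 n ≠ 0 := by rw [aa_one]; exact one_ne_zero
    exact hc.eventually_ne h1
  obtain ⟨ε, hε, hε'⟩ := Metric.eventually_nhds_iff.1 hsmall
  refine ⟨min δ (ε / 2), lt_min hδ (by positivity), fun n z hz => ?_⟩
  by_cases hn : n < N
  · refine hε' ?_ n (mem_range.2 hn)
    rw [dist_eq_norm]
    exact lt_of_le_of_lt (hz.trans (min_le_right _ _)) (by linarith)
  · exact hlarge n (not_lt.1 hn) z (hz.trans (min_le_left _ _))

theorem result :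
    ∃ δ > (0 : ℝ), ∃ C > (0 : ℝ), ∀ t : ℂ, ‖t‖ ≤ δ → ∃ ρ : ℂ,
      ρ ≠ 0 ∧
      ‖ρ - (1 + (Complex.exp 1 - 3) * t
        + (Complex.exp 1 ^ 2 - 9 / 2 * Complex.exp 1 + 5) * t ^ 2)‖ ≤ C * ‖t‖ ^ 3 ∧
      ∀ n : ℕ, 1 ≤ n → (A n).eval (1 + t) ≠ 0 ∧
        ‖(A n).eval (1 + t) / ((n - 1).factorial : ℂ) - (ρ⁻¹) ^ n‖ ≤ C * (2 / 3) ^ n := by
  obtain ⟨δ', hδ', H'⟩ := zero_free
  obtain ⟨δ, hδ, C, hC, hδ2, hCδ, H⟩ := quasi
  refine ⟨min δ δ', lt_min hδ hδ', C * (3 / 2), by positivity, fun t ht => ?_⟩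
  have ht1 : ‖t‖ ≤ δ := ht.trans (min_le_left _ _)
  have ht2 : ‖t‖ ≤ δ' := ht.trans (min_le_right _ _)
  obtain ⟨ρ, h1, h2, h3⟩ := H t ht1
  have b3 : ‖ρ - 1‖ ≤ 1 / 8 :=
    h1.trans ((mul_le_mul_of_nonneg_left ht1 hC.le).trans hCδ)
  refine ⟨ρ, ?_, ?_, fun n hn => ⟨?_, ?_⟩⟩
  · rintro rfl
    rw [zero_sub, norm_neg, norm_one] at b3
    norm_num at b3
  · refine h2.trans ?_
    have : 0 ≤ C * ‖t‖ ^ 3 := by positivity
    nlinarith
  · rw [eval_A]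
    refine mul_ne_zero (by exact_mod_cast (n - 1).factorial_ne_zero) (H' (n - 1) (1 + t) ?_)
    rw [add_sub_cancel_left]
    exact ht2
  · have hf : (((n - 1).factorial : ℕ) : ℂ) ≠ 0 := by
      exact_mod_cast (n - 1).factorial_ne_zero
    rw [eval_A, mul_div_cancel_left₀ _ hf]
    have h4 := h3 (n - 1)
    rw [Nat.sub_add_cancel hn] at h4
    refine h4.trans (le_of_eq ?_)
    obtain ⟨m, rfl⟩ : ∃ m, n = m + 1 := ⟨n - 1, by omega⟩
    rw [Nat.add_sub_cancel, pow_succ]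
    ring

end Pool.Agent.Results.MP_dbd6a6_co.ZeroFreeDisc
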